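import Pool.Agent.N782.GN.StmB

set_option autoImplicit false

/-! GN/DIV: divisors of the Gaussian integers in a rectangle (project GN of helper782). -/

namespace Pool.Agent.N954.GN

open Finset Pool.Agent.N782.GN

theorem nz_mul (a b : ZI) : nz (a * b) = nz a * nz b := by
  unfold nz
  rw [Zsqrtd.norm_mul]
  push_cast
  ring

theorem one_le_nz {a : ZI} (ha : a ≠ 0) : 1 ≤ nz a := by
  unfold nz
  have : 0 < Zsqrtd.norm a := GaussianInt.norm_pos.2 ha
  exact_mod_cast this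

/-- the norm in the maximum norm -/
def sn (z : ZI) : ℕ := max z.re.natAbs z.im.natAbs

theorem sn_pos {z : ZI} (hz : z ≠ 0) : 1 ≤ sn z := by
  unfold sn
  by_contra h
  apply hz
  have h1 : z.re.natAbs = 0 := by omega
  have h2 : z.im.natAbs = 0 := by omega
  exact Zsqrtd.ext (Int.natAbs_eq_zero.1 h1) (Int.natAbs_eq_zero.1 h2)

theorem sn_sq_le (z : ZI) : (sn z : ℝ) ^ 2 ≤ nz z := by
  rw [nz_eq]
  unfold sn
  rcases max_choice z.re.natAbs z.im.natAbs with h | h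
  · rw [h, Nat.cast_natAbs, Int.cast_abs, sq_abs]
    nlinarith [sq_nonneg (z.im : ℝ)]
  · rw [h, Nat.cast_natAbs, Int.cast_abs, sq_abs]
    nlinarith [sq_nonneg (z.re : ℝ)]

open Classical in
/-- few Gaussian integers with given maximum norm -/
theorem fiber_card (S : Finset ZI) (r : ℕ) (hr : 1 ≤ r) :
    ((S.filter fun z => sn z = r).card : ℝ) ≤ 12 * r := by
  have hsub : S.filter (fun z => sn z = r) ⊆
      ((({(r : ℤ), -(r : ℤ)} : Finset ℤ) ×ˢ Icc (-(r : ℤ)) r) ∪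
        (Icc (-(r : ℤ)) r ×ˢ ({(r : ℤ), -(r : ℤ)} : Finset ℤ))).image
      (fun p : ℤ × ℤ => (⟨p.1, p.2⟩ : ZI)) := by
    intro z hz
    obtain ⟨-, hz⟩ := Finset.mem_filter.1 hz
    unfold sn at hz
    rw [mem_image]
    refine ⟨(z.re, z.im), ?_, rfl⟩
    simp only [mem_union, mem_product, mem_insert, mem_singleton, mem_Icc]
    omega
  have h1 := (Finset.card_le_card hsub).trans (Finset.card_image_le)
  have h2 : (({(r : ℤ), -(r : ℤ)} : Finset ℤ)).card ≤ 2 := Finset.card_le_two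
  have h3 : (Icc (-(r : ℤ)) r).card = 2 * r + 1 := by
    rw [Int.card_Icc]
    omega
  have h4 := Finset.card_union_le (({(r : ℤ), -(r : ℤ)} : Finset ℤ) ×ˢ Icc (-(r : ℤ)) r)
    (Icc (-(r : ℤ)) r ×ˢ ({(r : ℤ), -(r : ℤ)} : Finset ℤ))
  rw [Finset.card_product, Finset.card_product, h3] at h4
  have h5 : (S.filter fun z => sn z = r).card ≤ 12 * r := by nlinarith
  exact_mod_cast h5

/-- sums over blocks by means of the maximum norm -/
theorem sum_bl_le (X : ℝ) (_hX : 0 ≤ X) (F : ℕ → ℝ) (hF : ∀ r, 0 ≤ F r) :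
    ∑ d ∈ bl X, F (sn d) ≤ ∑ r ∈ Icc 1 ⌊Real.sqrt X⌋₊, 12 * r * F r := by
  classical
  have hmap : ∀ d ∈ bl X, sn d ∈ Icc 1 ⌊Real.sqrt X⌋₊ := by
    intro d hd
    obtain ⟨hd0, hdX⟩ := (mem_bl X d).1 hd
    rw [mem_Icc]
    refine ⟨sn_pos hd0, Nat.le_floor ?_⟩
    exact Real.le_sqrt_of_sq_le ((sn_sq_le d).trans hdX)
  rw [← Finset.sum_fiberwise_of_maps_to hmap]
  refine Finset.sum_le_sum fun r hr => ?_
  have : ∑ d ∈ (bl X).filter (fun d => sn d = r), F (sn d) =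
      ((bl X).filter fun d => sn d = r).card * F r := by
    rw [Finset.sum_congr rfl (g := fun _ => F r) fun d hd => by rw [(Finset.mem_filter.1 hd).2]]
    rw [Finset.sum_const, nsmul_eq_mul]
  rw [this]
  exact mul_le_mul_of_nonneg_right (fiber_card _ r (mem_Icc.1 hr).1) (hF r)

theorem sum_inv_norm (X : ℝ) (hX : 1 ≤ X) :
    ∑ d ∈ bl X, 1 / nz d ≤ 12 * (1 + Real.log X) := by
  have h1 : ∑ d ∈ bl X, 1 / nz d ≤ ∑ d ∈ bl X, (fun r : ℕ => 1 / (r : ℝ) ^ 2) (sn d) := by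
    refine Finset.sum_le_sum fun d hd => ?_
    have h := sn_pos ((mem_bl X d).1 hd).1
    have h' : (0:ℝ) < sn d := by exact_mod_cast h
    exact one_div_le_one_div_of_le (by positivity) (sn_sq_le d)
  have h2 := sum_bl_le X (by linarith) (fun r : ℕ => 1 / (r : ℝ) ^ 2) (fun r => by positivity)
  have h3 : ∑ r ∈ Icc 1 ⌊Real.sqrt X⌋₊, 12 * (r : ℝ) * (1 / (r : ℝ) ^ 2) =
      12 * (harmonic ⌊Real.sqrt X⌋₊ : ℝ) := by
    rw [harmonic_eq_sum_Icc]
    push_cast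
    rw [Finset.mul_sum]
    refine Finset.sum_congr rfl fun r hr => ?_
    have : (0:ℝ) < r := by exact_mod_cast (mem_Icc.1 hr).1
    field_simp
  have h4 : (harmonic ⌊Real.sqrt X⌋₊ : ℝ) ≤ 1 + Real.log X := by
    refine (harmonic_floor_le_one_add_log (Real.sqrt X) (by
      rw [Real.one_le_sqrt]; exact hX)).trans ?_
    have : Real.log (Real.sqrt X) ≤ Real.log X := by
      rw [Real.log_sqrt (by linarith)]
      have := Real.log_nonneg hX
      linarith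
    linarith
  calc _ ≤ _ := h1
    _ ≤ _ := h2
    _ = _ := h3
    _ ≤ _ := by linarith

theorem sum_inv_abs (X : ℝ) (hX : 1 ≤ X) :
    ∑ d ∈ bl X, 1 / Real.sqrt (nz d) ≤ 12 * Real.sqrt X := by
  have h1 : ∑ d ∈ bl X, 1 / Real.sqrt (nz d) ≤ ∑ d ∈ bl X, (fun r : ℕ => 1 / (r : ℝ)) (sn d) := by
    refine Finset.sum_le_sum fun d hd => ?_
    have h := sn_pos ((mem_bl X d).1 hd).1
    have h' : (0:ℝ) < sn d := by exact_mod_cast h
    exact one_div_le_one_div_of_le (by positivity) (Real.le_sqrt_of_sq_le (sn_sq_le d))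
  have h2 := sum_bl_le X (by linarith) (fun r : ℕ => 1 / (r : ℝ)) (fun r => by positivity)
  have h3 : ∑ r ∈ Icc 1 ⌊Real.sqrt X⌋₊, 12 * (r : ℝ) * (1 / (r : ℝ)) =
      12 * (⌊Real.sqrt X⌋₊ : ℝ) := by
    rw [Finset.sum_congr rfl (g := fun _ => (12:ℝ)) fun r hr => ?_]
    · rw [Finset.sum_const, nsmul_eq_mul, Nat.card_Icc, Nat.add_sub_cancel]
      ring
    · have : (0:ℝ) < r := by exact_mod_cast (mem_Icc.1 hr).1
      field_simp
  have h4 : (⌊Real.sqrt X⌋₊ : ℝ) ≤ Real.sqrt X := Nat.floor_le (Real.sqrt_nonneg _)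
  calc _ ≤ _ := h1
    _ ≤ _ := h2
    _ = _ := h3
    _ ≤ _ := by linarith

theorem card_bl_le (X : ℝ) (hX : 1 ≤ X) : ((bl X).card : ℝ) ≤ 12 * X := by
  have h2 := sum_bl_le X (by linarith) (fun _ => 1) (fun r => by positivity)
  simp only [Finset.sum_const, nsmul_eq_mul, mul_one] at h2
  have h3 : ∑ r ∈ Icc 1 ⌊Real.sqrt X⌋₊, 12 * (r : ℝ) ≤
      ∑ _r ∈ Icc 1 ⌊Real.sqrt X⌋₊, 12 * Real.sqrt X := by
    refine Finset.sum_le_sum fun r hr => ?_
    have h5 : (r : ℝ) ≤ ⌊Real.sqrt X⌋₊ := by exact_mod_cast (mem_Icc.1 hr).2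
    have h4 : (⌊Real.sqrt X⌋₊ : ℝ) ≤ Real.sqrt X := Nat.floor_le (Real.sqrt_nonneg _)
    linarith
  have h4 : (⌊Real.sqrt X⌋₊ : ℝ) ≤ Real.sqrt X := Nat.floor_le (Real.sqrt_nonneg _)
  rw [Finset.sum_const, nsmul_eq_mul, Nat.card_Icc, Nat.add_sub_cancel] at h3
  have h5 : Real.sqrt X * Real.sqrt X = X := Real.mul_self_sqrt (by linarith)
  calc _ ≤ _ := h2
    _ ≤ _ := h3
    _ ≤ Real.sqrt X * (12 * Real.sqrt X) := by
      refine mul_le_mul_of_nonneg_right h4 (by positivity)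
    _ = 12 * (Real.sqrt X * Real.sqrt X) := by ring
    _ = _ := by rw [h5]

open Classical in
/-- small divisors suffice -/
theorem dv_le {z : ZI} {Y : ℝ} (hY : 0 < Y) (hz0 : z ≠ 0) (hz : nz z ≤ Y ^ 2) :
    dv z ≤ 2 * ((bl Y).filter fun d => d ∣ z).card := by
  unfold dv
  set D := (bl (nz z)).filter (fun d => d ∣ z) with hD
  have hsplit : D.card = (D.filter fun d => nz d ≤ Y).card + (D.filter fun d => ¬ nz d ≤ Y).card :=
    (Finset.card_filter_add_card_filter_not _).symm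
  have h1 : (D.filter fun d => nz d ≤ Y).card ≤ ((bl Y).filter fun d => d ∣ z).card := by
    refine Finset.card_le_card fun d hd => ?_
    simp only [hD, Finset.mem_filter, mem_bl] at hd ⊢
    exact ⟨⟨hd.1.1.1, hd.2⟩, hd.1.2⟩
  have h2 : (D.filter fun d => ¬ nz d ≤ Y).card ≤ ((bl Y).filter fun d => d ∣ z).card := by
    refine Finset.card_le_card_of_injOn (fun d => z / d) ?_ ?_
    · intro d hd
      have hd' := Finset.mem_coe.1 hd
      simp only [hD, Finset.mem_filter, mem_bl, not_le] at hd'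
      obtain ⟨⟨⟨hd0, -⟩, hdz⟩, hdY⟩ := hd'
      have he : d * (z / d) = z := EuclideanDomain.mul_div_cancel' hd0 hdz
      have he0 : z / d ≠ 0 := by
        intro h
        rw [h, mul_zero] at he
        exact hz0 he.symm
      have hn : nz d * nz (z / d) = nz z := by rw [← nz_mul, he]
      rw [Finset.mem_coe, Finset.mem_filter, mem_bl]
      refine ⟨⟨he0, ?_⟩, ⟨d, by rw [mul_comm]; exact he.symm⟩⟩
      by_contra hcon
      rw [not_le] at hcon
      have : Y * Y < nz d * nz (z / d) := mul_lt_mul'' hdY hcon hY.le hY.le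
      nlinarith
    · intro d hd d' hd' h
      have h1 := Finset.mem_coe.1 hd
      have h2 := Finset.mem_coe.1 hd'
      simp only [hD, Finset.mem_filter, mem_bl, not_le] at h1 h2
      have e1 : d * (z / d) = z := EuclideanDomain.mul_div_cancel' h1.1.1.1 h1.1.2
      have e2 : d' * (z / d') = z := EuclideanDomain.mul_div_cancel' h2.1.1.1 h2.1.2
      dsimp only at h
      have he0 : z / d ≠ 0 := by
        intro h
        rw [h, mul_zero] at e1
        exact hz0 e1.symm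
      rw [← h] at e2
      exact mul_right_cancel₀ he0 (e1.trans e2.symm)
  omega

open Classical in
/-- the multiples of `d` in a rectangle -/
theorem mult_count (L : ℝ) (m1 m2 : ℤ) (hL : 1 ≤ L) (hm : m1 ≤ m2) {d : ZI} (hd : d ≠ 0) :
    ((((Icc 1 ⌊L⌋) ×ˢ (Ioc m1 m2)).filter fun p : ℤ × ℤ => d ∣ (⟨p.1, p.2⟩ : ZI)).card : ℝ) ≤
      (2 * L / Real.sqrt (nz d) + 1) * (2 * ((m2 : ℝ) - m1) / Real.sqrt (nz d) + 1) := by
  set s : ℝ := Real.sqrt (nz d) / 2 with hs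
  have hnd : 1 ≤ nz d := one_le_nz hd
  have hsq : Real.sqrt (nz d) ^ 2 = nz d := Real.sq_sqrt (by linarith)
  have hs0 : 0 < s := by
    rw [hs]
    have : 0 < Real.sqrt (nz d) := Real.sqrt_pos.2 (by linarith)
    positivity
  have hinj : (((Icc 1 ⌊L⌋) ×ˢ (Ioc m1 m2)).filter fun p : ℤ × ℤ => d ∣ (⟨p.1, p.2⟩ : ZI)).card ≤
      ((Icc (0:ℤ) ⌊L / s⌋) ×ˢ (Icc (0:ℤ) ⌊((m2 : ℝ) - m1) / s⌋)).card := by
    refine Finset.card_le_card_of_injOn
      (fun p : ℤ × ℤ => (⌊(p.1 : ℝ) / s⌋, ⌊((p.2 : ℝ) - m1) / s⌋)) ?_ ?_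
    · rintro ⟨l, m⟩ hp
      have hp' := Finset.mem_coe.1 hp
      rw [Finset.mem_filter, mem_product, mem_Icc, mem_Ioc] at hp'
      obtain ⟨⟨⟨hl1, hl2⟩, hm1, hm2⟩, -⟩ := hp'
      dsimp only at hl1 hl2 hm1 hm2
      have hl1' : (1:ℝ) ≤ l := by exact_mod_cast hl1
      have hl2' : (l:ℝ) ≤ L := Int.le_floor.1 hl2
      have hm1' : (m1:ℝ) < m := by exact_mod_cast hm1
      have hm2' : (m:ℝ) ≤ m2 := by exact_mod_cast hm2
      rw [Finset.mem_coe, mem_product, mem_Icc, mem_Icc]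
      dsimp only
      refine ⟨⟨Int.floor_nonneg.2 (by positivity), Int.floor_le_floor ?_⟩,
        ⟨Int.floor_nonneg.2 (div_nonneg (by linarith) hs0.le), Int.floor_le_floor ?_⟩⟩
      · gcongr
      · gcongr
    · rintro ⟨l, m⟩ hp ⟨l', m'⟩ hp' h
      have hp := Finset.mem_coe.1 hp
      have hp' := Finset.mem_coe.1 hp'
      rw [Finset.mem_filter] at hp hp'
      obtain ⟨-, h1⟩ := hp
      obtain ⟨-, h2⟩ := hp'
      dsimp only at h1 h2
      simp only [Prod.mk.injEq] at h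
      obtain ⟨ha, hb⟩ := h
      have ka : |(l:ℝ) / s - l' / s| < 1 := Int.abs_sub_lt_one_of_floor_eq_floor ha
      have kb : |((m:ℝ) - m1) / s - ((m':ℝ) - m1) / s| < 1 :=
        Int.abs_sub_lt_one_of_floor_eq_floor hb
      have ka' : |(l:ℝ) - l'| < s := by
        rw [← sub_div, abs_div, abs_of_pos hs0, div_lt_one hs0] at ka
        exact ka
      have kb' : |(m:ℝ) - m'| < s := by
        rw [← sub_div, abs_div, abs_of_pos hs0, div_lt_one hs0] at kb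
        simpa using kb
      obtain ⟨w, hw⟩ := dvd_sub h1 h2
      have hw' : nz ((⟨l, m⟩ : ZI) - ⟨l', m'⟩) = nz d * nz w := by rw [hw, nz_mul]
      have hn : nz ((⟨l, m⟩ : ZI) - ⟨l', m'⟩) = ((l:ℝ) - l') ^ 2 + ((m:ℝ) - m') ^ 2 := by
        rw [nz_eq]
        simp
      have hlt : ((l:ℝ) - l') ^ 2 + ((m:ℝ) - m') ^ 2 < nz d := by
        have q1 : ((l:ℝ) - l') ^ 2 < s ^ 2 := by
          rw [← sq_abs]
          exact pow_lt_pow_left₀ ka' (abs_nonneg _) two_ne_zero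
        have q2 : ((m:ℝ) - m') ^ 2 < s ^ 2 := by
          rw [← sq_abs]
          exact pow_lt_pow_left₀ kb' (abs_nonneg _) two_ne_zero
        have q3 : s ^ 2 = nz d / 4 := by
          rw [hs, div_pow, hsq]; norm_num
        rw [q3] at q1 q2
        linarith
      have hw0 : w = 0 := by
        by_contra hw0
        have := one_le_nz hw0
        rw [hn] at hw'
        rw [hw'] at hlt
        nlinarith
      rw [hw0, mul_zero, sub_eq_zero] at hw
      have e1 := congrArg Zsqrtd.re hw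
      have e2 := congrArg Zsqrtd.im hw
      dsimp only at e1 e2
      rw [e1, e2]
  have hinj' : ((((Icc 1 ⌊L⌋) ×ˢ (Ioc m1 m2)).filter
      fun p : ℤ × ℤ => d ∣ (⟨p.1, p.2⟩ : ZI)).card : ℝ) ≤
      (((Icc (0:ℤ) ⌊L / s⌋) ×ˢ (Icc (0:ℤ) ⌊((m2 : ℝ) - m1) / s⌋)).card : ℝ) := by
    exact_mod_cast hinj
  refine hinj'.trans ?_
  rw [Finset.card_product, Int.card_Icc, Int.card_Icc]
  have hm' : (0:ℝ) ≤ (m2:ℝ) - m1 := by
    have : (m1:ℝ) ≤ m2 := by exact_mod_cast hm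
    linarith
  have g1 : (((⌊L / s⌋ + 1 - 0).toNat : ℕ) : ℝ) ≤ L / s + 1 := by
    have h0 : 0 ≤ ⌊L / s⌋ := Int.floor_nonneg.2 (by positivity)
    have : (((⌊L / s⌋ + 1 - 0).toNat : ℕ) : ℝ) = ((⌊L / s⌋ + 1 - 0 : ℤ) : ℝ) := by
      rw [← Int.cast_natCast, Int.toNat_of_nonneg (by omega)]
    rw [this]
    push_cast
    have := Int.floor_le (L / s)
    linarith
  have g2 : (((⌊((m2 : ℝ) - m1) / s⌋ + 1 - 0).toNat : ℕ) : ℝ) ≤ ((m2 : ℝ) - m1) / s + 1 := by
    have h0 : 0 ≤ ⌊((m2 : ℝ) - m1) / s⌋ := Int.floor_nonneg.2 (by positivity)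
    have : (((⌊((m2 : ℝ) - m1) / s⌋ + 1 - 0).toNat : ℕ) : ℝ) =
        ((⌊((m2 : ℝ) - m1) / s⌋ + 1 - 0 : ℤ) : ℝ) := by
      rw [← Int.cast_natCast, Int.toNat_of_nonneg (by omega)]
    rw [this]
    push_cast
    have := Int.floor_le (((m2 : ℝ) - m1) / s)
    linarith
  have e1 : L / s = 2 * L / Real.sqrt (nz d) := by
    rw [hs]
    field_simp
  have e2 : ((m2 : ℝ) - m1) / s = 2 * ((m2 : ℝ) - m1) / Real.sqrt (nz d) := by
    rw [hs]
    field_simp
  rw [← e1, ← e2]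
  push_cast
  exact mul_le_mul g1 g2 (by positivity) (by positivity)

/-- (DIV) divisors of the Gaussian integers in a rectangle -/
theorem div_rect : S_DIV := by
  classical
  refine ⟨2000, by norm_num, ?_⟩
  intro L M m1 m2 hM hL hLM hm hm1 hm2
  have hM0 : (0:ℝ) < M := by linarith
  have hD0 : (0:ℝ) ≤ (m2:ℝ) - m1 := by
    have : (m1:ℝ) ≤ m2 := by exact_mod_cast hm
    linarith
  have hD1 : (m2:ℝ) - m1 ≤ 2 * M := by
    have h1 := abs_le.1 hm1
    have h2 := abs_le.1 hm2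
    linarith [h1.1, h2.2]
  set R := (Icc 1 ⌊L⌋) ×ˢ (Ioc m1 m2) with hR
  -- from all divisors to small ones
  have h1 : ∑ l ∈ Icc 1 ⌊L⌋, ∑ m ∈ Ioc m1 m2, (dv (⟨l, m⟩ : ZI) : ℝ) ≤
      2 * ∑ d ∈ bl (2 * M), ((R.filter fun p : ℤ × ℤ => d ∣ (⟨p.1, p.2⟩ : ZI)).card : ℝ) := by
    have e1 : ∑ l ∈ Icc 1 ⌊L⌋, ∑ m ∈ Ioc m1 m2, (dv (⟨l, m⟩ : ZI) : ℝ) =
        ∑ p ∈ R, (dv (⟨p.1, p.2⟩ : ZI) : ℝ) := by
      rw [hR, Finset.sum_product]
    have e2 : ∀ p ∈ R, (dv (⟨p.1, p.2⟩ : ZI) : ℝ) ≤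
        2 * ∑ d ∈ bl (2 * M), (if d ∣ (⟨p.1, p.2⟩ : ZI) then (1:ℝ) else 0) := by
      rintro ⟨l, m⟩ hp
      rw [hR, mem_product, mem_Icc, mem_Ioc] at hp
      obtain ⟨⟨hl1, hl2⟩, hm1', hm2'⟩ := hp
      dsimp only at hl1 hl2 hm1' hm2' ⊢
      have hl1r : (1:ℝ) ≤ l := by exact_mod_cast hl1
      have hl2r : (l:ℝ) ≤ L := Int.le_floor.1 hl2
      have hm1r : (m1:ℝ) < m := by exact_mod_cast hm1'
      have hm2r : (m:ℝ) ≤ m2 := by exact_mod_cast hm2'
      have hz0 : (⟨l, m⟩ : ZI) ≠ 0 := by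
        intro h
        have := congrArg Zsqrtd.re h
        simp at this
        omega
      have hz : nz (⟨l, m⟩ : ZI) ≤ (2 * M) ^ 2 := by
        rw [nz_eq]
        dsimp only
        have h1 := abs_le.1 hm1
        have h2 := abs_le.1 hm2
        have h3 : (m:ℝ) ^ 2 ≤ M ^ 2 := sq_le_sq' (by linarith [h1.1]) (by linarith [h2.2])
        have h4 : (l:ℝ) ^ 2 ≤ M ^ 2 := sq_le_sq' (by linarith) (by linarith)
        nlinarith
      have h := dv_le (by linarith : (0:ℝ) < 2 * M) hz0 hz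
      have h' : (dv (⟨l, m⟩ : ZI) : ℝ) ≤ 2 * (((bl (2 * M)).filter fun d => d ∣ (⟨l, m⟩ : ZI)).card : ℝ) := by
        exact_mod_cast h
      refine h'.trans (le_of_eq ?_)
      rw [Finset.card_filter]
      push_cast
      rfl
    rw [e1]
    refine (Finset.sum_le_sum e2).trans (le_of_eq ?_)
    rw [← Finset.mul_sum, Finset.sum_comm]
    congr 1
    refine Finset.sum_congr rfl fun d _ => ?_
    rw [Finset.card_filter]
    push_cast
    rfl
  -- multiples of d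
  have h2 : ∑ d ∈ bl (2 * M), ((R.filter fun p : ℤ × ℤ => d ∣ (⟨p.1, p.2⟩ : ZI)).card : ℝ) ≤
      4 * L * ((m2:ℝ) - m1) * (∑ d ∈ bl (2 * M), 1 / nz d) +
      2 * (L + ((m2:ℝ) - m1)) * (∑ d ∈ bl (2 * M), 1 / Real.sqrt (nz d)) + (bl (2 * M)).card := by
    rw [Finset.mul_sum, Finset.mul_sum, ← Finset.sum_add_distrib, Finset.card_eq_sum_ones,
      Nat.cast_sum, ← Finset.sum_add_distrib]
    refine Finset.sum_le_sum fun d hd => ?_
    have hd0 := ((mem_bl _ d).1 hd).1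
    refine (mult_count L m1 m2 hL hm hd0).trans (le_of_eq ?_)
    have hnd : 1 ≤ nz d := one_le_nz hd0
    have hsq : Real.sqrt (nz d) ^ 2 = nz d := Real.sq_sqrt (by linarith)
    have hs0 : 0 < Real.sqrt (nz d) := Real.sqrt_pos.2 (by linarith)
    set q := Real.sqrt (nz d) with hq
    rw [← hsq]
    push_cast
    field_simp
    ring
  have s1 := sum_inv_norm (2 * M) (by linarith)
  have s2 := sum_inv_abs (2 * M) (by linarith)
  have s3 := card_bl_le (2 * M) (by linarith)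
  have hlog2 : (0.69:ℝ) < Real.log 2 := by linarith [Real.log_two_gt_d9]
  have hlogM : Real.log 2 ≤ Real.log M := Real.log_le_log (by norm_num) hM
  have s1' : ∑ d ∈ bl (2 * M), 1 / nz d ≤ 48 * Real.log M := by
    refine s1.trans ?_
    rw [Real.log_mul (by norm_num) hM0.ne']
    linarith
  have s2' : ∑ d ∈ bl (2 * M), 1 / Real.sqrt (nz d) ≤ 24 * Real.sqrt M := by
    refine s2.trans ?_
    rw [Real.sqrt_mul (by norm_num)]
    have : Real.sqrt 2 ≤ 2 := by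
      rw [Real.sqrt_le_left (by norm_num)]; norm_num
    nlinarith [Real.sqrt_nonneg M]
  have hsM : 1 ≤ Real.sqrt M := by
    rw [Real.one_le_sqrt]; linarith
  have s3' : ((bl (2 * M)).card : ℝ) ≤ 24 * M * Real.sqrt M := by
    refine s3.trans ?_
    nlinarith
  have t1 : 4 * L * ((m2:ℝ) - m1) * (∑ d ∈ bl (2 * M), 1 / nz d) ≤
      4 * L * ((m2:ℝ) - m1) * (48 * Real.log M) :=
    mul_le_mul_of_nonneg_left s1' (by positivity)
  have t2 : 2 * (L + ((m2:ℝ) - m1)) * (∑ d ∈ bl (2 * M), 1 / Real.sqrt (nz d)) ≤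
      2 * (3 * M) * (24 * Real.sqrt M) := by
    have hn : 0 ≤ ∑ d ∈ bl (2 * M), 1 / Real.sqrt (nz d) :=
      Finset.sum_nonneg fun d _ => by positivity
    exact mul_le_mul (by linarith) s2' hn (by positivity)
  have hlogM0 : 0 < Real.log M := by linarith
  have t3 : 0 ≤ L * ((m2:ℝ) - m1) * Real.log M := by positivity
  have t4 : 0 ≤ M * Real.sqrt M := by positivity
  calc _ ≤ _ := h1
    _ ≤ 2 * (4 * L * ((m2:ℝ) - m1) * (48 * Real.log M) + 2 * (3 * M) * (24 * Real.sqrt M) +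
        24 * M * Real.sqrt M) := by linarith
    _ ≤ 2000 * (L * ((m2:ℝ) - m1) * Real.log M + M * Real.sqrt M) := by nlinarith

end Pool.Agent.N954.GN
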